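import Pool.Agent.N590.UF.Final

set_option autoImplicit false

/-!
# Gates of unbounded fan-in for one polynomial: the trace of a product of three matrices and the
determinant

Definitions: `trank`, `omega`, `growth`, `Superlinear`, `sizeMM` in `Pool.Agent.W956.KF.Defs`,
`IsDer` in `Pool.Agent.H53R3.Der`, `Avail`, `IsRun` in `Pool.Agent.N590.MS.Defs`, all others in
`Pool.Agent.N590.UF.Defs`.
-/

namespace Pool.Agent.Results.MP_e72dc0_lc.SinglePolynomials

open Pool.Agent.W956.KF Pool.Agent.N590.MS Pool.Agent.N590.UF

/-- A step takes one quantity `w`, which is either a linear combination or a product of arbitrarily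
many quantities (also inverses are allowed), and gives a rational function of `w`. So a step is a
gate `+` or `×` of unbounded fan-in; wires are not counted. Some variables belong to one of three
groups, and all rational functions which depend on the variables of at most one group (and on the
variables in no group) are free.

(1) `F` infinite: if `t` steps compute the single polynomial `tr(ABC)` of three generic matrices
(the groups), then the rank of the tensor of matrix multiplication is at most `5 t`; and `t` equal
to the rank suffices.
(2) So the least number `gatesTrace F m` of steps for `tr(ABC)` with `m × m` matrices has the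
exponent of matrix multiplication, and the lower bound asked for in the question is equivalent to
the same kind of bound for the number of steps for this single polynomial.
(3) `F` infinite: if `t` steps compute the determinant of the generic `n × n` matrix, `3 q ≤ n`,
the groups are three blocks of `q` columns (the entries in the other columns are in no group), then
the rank of the tensor of the multiplication of `q × q` matrices is at most `5 t + 1`.
(4) In general: in every field `E` with three families of derivations (commuting with each other,
zero on `F`), where the elements killed by two of the families are free and `z` is a function of `w`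
if `dz = h dw`, `dh = g dw` for some `h`, `g`: if `f` is computed with `t` steps, then the tensor of
the mixed third derivatives of `f` has rank at most `5 t`. -/
theorem result :
    (∀ (F : Type) [Field F] [Infinite F] (m n p : ℕ),
      InGates F grp3 (traceABC F m n p) (trank F m n p) ∧
      ∀ t, InGates F grp3 (traceABC F m n p) t → trank F m n p ≤ 5 * t) ∧
    (∀ (F : Type) [Field F] [Infinite F], growth (gatesTrace F) = omega F ∧
      (Superlinear (sizeMM F) ↔ Superlinear (gatesTrace F))) ∧
    (∀ (F : Type) [Field F] [Infinite F] (n q t : ℕ), 3 * q ≤ n →
      InGates F (grpCol q) (Matrix.mvPolynomialX (Fin n) (Fin n) F).det t →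
      trank F q q q ≤ 5 * t + 1) ∧
    (∀ (F E X Y Z : Type) [Field F] [Field E] [Algebra F E] (dA : X → E → E) (dB : Y → E → E)
      (dC : Z → E → E) (z : ℕ → E) (t : ℕ) (f : E), Three F dA dB dC →
      IsRun F (Fn2 dA dB dC) (OneGroup dA dB dC) z t →
      f ∈ Submodule.span F (Avail (OneGroup dA dB dC) z t) →
      ∃ (u : Fin (5 * t) → X → E) (v : Fin (5 * t) → Y → E) (w : Fin (5 * t) → Z → E),
        ∀ x y c, dA x (dB y (dC c f)) = ∑ l, u l x * v l y * w l c) := by
  refine ⟨fun F _ _ m n p => ⟨inGates_of_rank (rankLE_trank F m n p),
    fun t h => trank_le (trace_rank h)⟩, fun F _ _ => gates_part F,
    fun F _ _ n q t hq h => trank_le (det_rank hq h), ?_⟩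
  intro F E X Y Z _ _ _ dA dB dC z t f h hz hf
  exact third_tensor h hz hf

end Pool.Agent.Results.MP_e72dc0_lc.SinglePolynomials
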